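import Mathlib

/-!
# MP_5fbfc2_al: group-theoretic lemmas for `IndependentCentralisers`
-/

namespace Pool.Agent.MP_5fbfc2_al.IC

open Subgroup

/-- A finite solvable non-abelian group has a non-central normal `p`-subgroup. -/
theorem exists_normal_pSubgroup {G : Type*} [Group G] [Finite G] [Group.IsSolvable G]
    (hna : ¬ ∀ a b : G, a * b = b * a) :
    ∃ p : ℕ, p.Prime ∧ ∃ R : Subgroup G, R.Normal ∧ IsPGroup p R ∧ ¬ R ≤ center G := by
  classical
  have hex : ∃ n, derivedSeries G n ≤ center G := by
    obtain ⟨n, hn⟩ := Group.IsSolvable.solvable (G := G)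
    exact ⟨n, hn ▸ bot_le⟩
  obtain ⟨k, hk⟩ : ∃ k, Nat.find hex = k + 1 := by
    refine Nat.exists_eq_succ_of_ne_zero fun h0 => hna ?_
    have h := Nat.find_spec hex
    rw [h0, derivedSeries_zero] at h
    intro a b
    exact ((mem_center_iff.mp (h (mem_top a))) b).symm
  have h1 : derivedSeries G (k + 1) ≤ center G := hk ▸ Nat.find_spec hex
  have h2 : ¬ derivedSeries G k ≤ center G := Nat.find_min hex (by omega)
  set B := derivedSeries G k with hB
  have hBn : B.Normal := derivedSeries_normal G k
  rw [derivedSeries_succ] at h1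
  -- `B` is nilpotent
  have hnil : Group.IsNilpotent B := by
    refine Subgroup.isNilpotent_of_ker_le_center (Abelianization.of : B →* Abelianization B) ?_
    rw [Abelianization.ker_of, commutator_def, commutator_le]
    intro x _ y _
    rw [mem_center_iff]
    intro z
    have hc : (x : G) * (y : G) * (x : G)⁻¹ * (y : G)⁻¹ ∈ center G := h1 (commutator_mem_commutator x.2 y.2)
    have := (mem_center_iff.mp hc) z
    ext
    simpa [commutatorElement_def] using this
  by_contra hcon
  push Not at hcon
  apply h2
  -- all Sylow subgroups of `B` are central in `G`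
  have hS : ∀ p : ℕ, p.Prime → ∀ P : Sylow p B, (P : Subgroup B) ≤ (center G).subgroupOf B := by
    intro p hp P
    have : Fact p.Prime := ⟨hp⟩
    have q4 := (Group.isNilpotent_of_finite_tfae (G := B)).out 0 3
    have hPn : (P : Subgroup B).Normal := q4.mp hnil p this P
    have hPc : (P : Subgroup B).Characteristic := Sylow.characteristic_of_normal P hPn
    have hn : ((P : Subgroup B).map B.subtype).Normal := inferInstance
    have hpg : IsPGroup p ((P : Subgroup B).map B.subtype) := P.isPGroup'.map B.subtype
    have := hcon p hp _ hn hpg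
    intro x hx
    exact this (mem_map_of_mem _ hx)
  have hidx : ((center G).subgroupOf B).index = 1 := by
    by_contra h1'
    obtain ⟨p, hp, hd⟩ := Nat.exists_prime_and_dvd h1'
    have : Fact p.Prime := ⟨hp⟩
    let P : Sylow p B := default
    exact P.not_dvd_index (hd.trans (index_dvd_of_le (hS p hp P)))
  rw [index_eq_one] at hidx
  intro x hx
  have : (⟨x, hx⟩ : B) ∈ (center G).subgroupOf B := hidx ▸ mem_top _
  exact this

/-- If a normal `p`-subgroup `R` normalises `C(g)` and `p` does not divide `|C(g) : Z(G)|` then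
`R` is central. -/
theorem normal_le_center {G : Type*} [Group G] [Finite G] {p : ℕ} (hp : p.Prime)
    {R : Subgroup G} (hR : R.Normal) (hpR : IsPGroup p R) {g : G}
    (hn : R ≤ (normalizer (centralizer {g} : Subgroup G)))
    (hd : ¬ p ∣ (center G).relIndex (centralizer {g})) : R ≤ center G := by
  set C : Subgroup G := centralizer {g} with hC
  have hg : g ∈ C := by rw [hC, mem_centralizer_singleton_iff]
  set m := (center G).relIndex C with hm
  have hcop : ∀ k : ℕ, Nat.Coprime (p ^ k) m := fun k =>
    Nat.Coprime.pow_left _ ((Nat.Prime.coprime_iff_not_dvd hp).mpr hd)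
  -- `m`-th powers of elements of `C` are central
  have hpow : ∀ c ∈ C, c ^ m ∈ center G := by
    intro c hc
    have h := Subgroup.pow_index_mem ((center G).subgroupOf C) ⟨c, hc⟩
    exact h
  -- `R ∩ C` is central
  have hRC : ∀ x ∈ R, x ∈ C → x ∈ center G := by
    intro x hxR hxC
    obtain ⟨k, hk⟩ := hpR ⟨x, hxR⟩
    have hk' : x ^ p ^ k = 1 := by simpa using congrArg Subtype.val hk
    have h1 := hpow x hxC
    -- Bezout
    have hz : x ∈ center G := by
      have hb := Nat.gcd_eq_gcd_ab (p ^ k) m
      rw [(hcop k).gcd_eq_one] at hb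
      have hx : x = x ^ ((p ^ k : ℕ) * Nat.gcdA (p ^ k) m + (m : ℤ) * Nat.gcdB (p ^ k) m : ℤ) := by
        rw [← hb]; simp
      rw [hx, zpow_add, zpow_mul, zpow_mul, zpow_natCast, zpow_natCast, hk', one_zpow, one_mul]
      exact (center G).zpow_mem h1 _
    exact hz
  intro x hx
  have hxC : x ∈ C := by
    have hc1 : x * g * x⁻¹ * g⁻¹ ∈ R := by
      have : x * (g * x⁻¹ * g⁻¹) ∈ R := R.mul_mem hx (hR.conj_mem _ (R.inv_mem hx) g)
      simpa [mul_assoc] using this
    have hc2 : x * g * x⁻¹ * g⁻¹ ∈ C := by
      have h := (mem_normalizer_iff.mp (hn hx) g).mp hg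
      exact C.mul_mem h (C.inv_mem hg)
    have hz := hRC _ hc1 hc2
    set z := x * g * x⁻¹ * g⁻¹ with hzd
    have hxg : x * g * x⁻¹ = z * g := by rw [hzd]; group
    have hzc : Commute z g := ((mem_center_iff.mp hz) g).symm
    have h1 : x * g ^ m * x⁻¹ = z ^ m * g ^ m := by
      rw [← hzc.mul_pow, ← hxg, conj_pow]
    have h2 : x * g ^ m * x⁻¹ = g ^ m := by
      have := (mem_center_iff.mp (hpow g hg)) x
      rw [this, mul_assoc, mul_inv_cancel, mul_one]
    have h3 : z ^ m = 1 := by
      rw [h2] at h1
      exact (mul_eq_right.mp h1.symm)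
    obtain ⟨k, hk⟩ := hpR ⟨z, hc1⟩
    have hk' : z ^ p ^ k = 1 := by simpa using congrArg Subtype.val hk
    have h4 : z = 1 := by
      have : orderOf z ∣ 1 := by
        rw [← (hcop k).gcd_eq_one]
        exact Nat.dvd_gcd (orderOf_dvd_of_pow_eq_one hk') (orderOf_dvd_of_pow_eq_one h3)
      exact orderOf_eq_one_iff.mp (Nat.dvd_one.mp this)
    rw [hC, mem_centralizer_singleton_iff]
    rw [h4, one_mul] at hxg
    calc x * g = x * g * x⁻¹ * x := by group
      _ = g * x := by rw [hxg]
  exact hRC x hx hxC

/-- If a `p`-group is not contained in the centre then `p` divides `|G : Z(G)|`. -/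
theorem dvd_index_center {G : Type*} [Group G] [Finite G] {p : ℕ} (hp : p.Prime)
    {Q : Subgroup G} (hQ : IsPGroup p Q) (hc : ¬ Q ≤ center G) : p ∣ (center G).index := by
  by_contra hd
  apply hc
  intro x hx
  obtain ⟨k, hk⟩ := hQ ⟨x, hx⟩
  have hk' : x ^ p ^ k = 1 := by simpa using congrArg Subtype.val hk
  have h1 : x ^ (center G).index ∈ center G := Subgroup.pow_index_mem _ x
  have hcop : Nat.Coprime (p ^ k) (center G).index :=
    Nat.Coprime.pow_left _ ((Nat.Prime.coprime_iff_not_dvd hp).mpr hd)
  have hb := Nat.gcd_eq_gcd_ab (p ^ k) (center G).index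
  rw [hcop.gcd_eq_one] at hb
  have hx : x = x ^ ((p ^ k : ℕ) * Nat.gcdA (p ^ k) (center G).index
      + ((center G).index : ℤ) * Nat.gcdB (p ^ k) (center G).index : ℤ) := by
    rw [← hb]; simp
  rw [hx, zpow_add, zpow_mul, zpow_mul, zpow_natCast, zpow_natCast, hk', one_zpow, one_mul]
  exact (center G).zpow_mem h1 _

/-- a weighted fixed point count -/
theorem sum_eq_zero_of_fixed {Q α : Type*} [Group Q] [MulAction Q α] [Fintype α] {p : ℕ}
    [Fact p.Prime] (hQ : IsPGroup p Q) (f : α → ZMod p) (hf : ∀ (x : Q) c, f (x • c) = f c)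
    (h0 : ∀ c, (∀ x : Q, x • c = c) → f c = 0) : ∑ c, f c = 0 := by
  classical
  have h1 : ∑ c, f c = ∑ b ∈ Finset.univ.image f, (Finset.univ.filter fun c => f c = b).card • b :=
    Finset.sum_comp (s := (Finset.univ : Finset α)) (fun b => b) f
  rw [h1]
  refine Finset.sum_eq_zero fun b _ => ?_
  by_cases hb : b = 0
  · rw [hb, smul_zero]
  let act : MulAction Q {c : α // f c = b} :=
    { smul := fun x c => ⟨x • c.1, by rw [hf x c.1, c.2]⟩
      one_smul := fun c => Subtype.ext (one_smul Q c.1)
      mul_smul := fun x y c => Subtype.ext (mul_smul x y c.1) }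
  have h2 : Nat.card {c : α // f c = b}
      ≡ Nat.card (MulAction.fixedPoints Q {c : α // f c = b}) [MOD p] :=
    hQ.card_modEq_card_fixedPoints _
  have h3 : IsEmpty (MulAction.fixedPoints Q {c : α // f c = b}) := by
    refine ⟨fun c => hb ?_⟩
    rw [← c.1.2]
    apply h0
    intro x
    exact congrArg Subtype.val (c.2 x)
  have h3' : Nat.card (MulAction.fixedPoints Q {c : α // f c = b}) = 0 := Nat.card_of_isEmpty
  rw [h3'] at h2
  have h4 : Nat.card {c : α // f c = b} = (Finset.univ.filter fun c => f c = b).card := by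
    rw [Nat.card_eq_fintype_card]
    exact Fintype.card_subtype _
  rw [h4] at h2
  have h5 : ((Finset.univ.filter fun c => f c = b).card : ZMod p) = 0 := by
    rw [← Nat.cast_zero]
    exact (ZMod.natCast_eq_natCast_iff _ _ _).mpr h2
  rw [nsmul_eq_mul, h5, zero_mul]

/-- independence modulo `p` lifts to `ℚ` -/
theorem indep_lift {κ X : Type*} [Finite κ] {p : ℕ} [hp : Fact p.Prime] (v : κ → X → ℤ)
    (h : LinearIndependent (ZMod p) (fun i x => (v i x : ZMod p))) :
    LinearIndependent ℚ (fun i x => (v i x : ℚ)) := by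
  classical
  have := Fintype.ofFinite κ
  have hdesc : ∀ (j : ℕ) (n : κ → ℤ), (∀ x, ∑ k, n k * v k x = 0) → ∀ k, (p : ℤ) ^ j ∣ n k := by
    intro j
    induction j with
    | zero => intro n _ k; simp
    | succ j ih =>
        intro n hn
        have h1 : ∀ k, ((n k : ℤ) : ZMod p) = 0 := by
          have h2 : ∑ k, ((n k : ℤ) : ZMod p) • (fun x => (v k x : ZMod p)) = 0 := by
            funext x
            rw [Finset.sum_apply]
            simp only [Pi.smul_apply, smul_eq_mul, Pi.zero_apply]
            have h3 := congrArg (fun t : ℤ => (t : ZMod p)) (hn x)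
            simpa using h3
          exact (Fintype.linearIndependent_iff.mp h) _ h2
        have h2 : ∀ k, ∃ m, n k = p * m := fun k => by
          have := (ZMod.intCast_zmod_eq_zero_iff_dvd (n k) p).mp (h1 k)
          exact this
        choose m hm using h2
        have hp0 : (p : ℤ) ≠ 0 := by exact_mod_cast hp.out.ne_zero
        have h3 : ∀ x, ∑ k, m k * v k x = 0 := by
          intro x
          have h4 := hn x
          have h5 : ∑ k, n k * v k x = p * ∑ k, m k * v k x := by
            rw [Finset.mul_sum]
            refine Finset.sum_congr rfl fun k _ => ?_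
            rw [hm k, mul_assoc]
          rw [h5] at h4
          exact (mul_eq_zero.mp h4).resolve_left hp0
        intro k
        obtain ⟨t, ht⟩ := ih m h3 k
        exact ⟨t, by rw [hm k, ht, pow_succ]; ring⟩
  have hZ : LinearIndependent ℤ (fun i x => (v i x : ℚ)) := by
    rw [Fintype.linearIndependent_iff]
    intro n hn k
    have h1 : ∀ x, ∑ k, n k * v k x = 0 := by
      intro x
      have h2 := congrFun hn x
      rw [Finset.sum_apply] at h2
      simp only [Pi.smul_apply, zsmul_eq_mul, Pi.zero_apply] at h2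
      exact_mod_cast h2
    by_contra hk
    have h2 := hdesc (n k).natAbs n h1 k
    have h3 : p ^ (n k).natAbs ∣ (n k).natAbs := by
      have := Int.natAbs_dvd_natAbs.mpr h2
      rwa [Int.natAbs_pow, Int.natAbs_natCast] at this
    have h4 := Nat.le_of_dvd (Int.natAbs_pos.mpr hk) h3
    exact absurd h4 (not_le.mpr (Nat.lt_pow_self hp.out.one_lt))
  exact (LinearIndependent.iff_fractionRing ℤ ℚ).mp hZ

/-- an integral vector in the rational span lies in the span modulo `p` if the rank does not
drop -/
theorem span_mod {ι X : Type*} [Finite ι] [Finite X] {p : ℕ} [hp : Fact p.Prime]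
    (v : ι → X → ℤ) (w : X → ℤ)
    (hr : Module.finrank ℚ (Submodule.span ℚ (Set.range fun i x => (v i x : ℚ)))
      ≤ Module.finrank (ZMod p) (Submodule.span (ZMod p) (Set.range fun i x => (v i x : ZMod p))))
    (hw : (fun x => (w x : ℚ)) ∈ Submodule.span ℚ (Set.range fun i x => (v i x : ℚ))) :
    (fun x => (w x : ZMod p)) ∈ Submodule.span (ZMod p) (Set.range fun i x => (v i x : ZMod p)) := by
  classical
  by_contra hcon
  obtain ⟨κ, a, ha, hspan, hind⟩ :=
    exists_linearIndependent' (ZMod p) (fun i x => (v i x : ZMod p))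
  have hκ : Finite κ := Finite.of_injective a ha
  have := Fintype.ofFinite κ
  have := Fintype.ofFinite X
  have hnot : (fun x => (w x : ZMod p)) ∉ Submodule.span (ZMod p)
      (Set.range ((fun i x => (v i x : ZMod p)) ∘ a)) := by rwa [hspan]
  have h1 := LinearIndependent.option hind hnot
  let u : Option κ → X → ℤ := fun o => Option.casesOn' o w (fun k => v (a k))
  have h2 : LinearIndependent (ZMod p) (fun o x => (u o x : ZMod p)) := by
    have he : (fun (o : Option κ) (x : X) => (u o x : ZMod p))
        = fun o => Option.casesOn' o (fun x => (w x : ZMod p))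
          ((fun i x => (v i x : ZMod p)) ∘ a) := by
      funext o
      cases o <;> rfl
    rw [he]
    exact h1
  have h3 := indep_lift u h2
  have h4 : Submodule.span ℚ (Set.range fun o x => (u o x : ℚ))
      ≤ Submodule.span ℚ (Set.range fun i x => (v i x : ℚ)) := by
    rw [Submodule.span_le]
    rintro _ ⟨o, rfl⟩
    cases o with
    | none => exact hw
    | some k => exact Submodule.subset_span ⟨a k, rfl⟩
  have h5 := Submodule.finrank_mono h4
  rw [finrank_span_eq_card h3] at h5
  have h6 : Module.finrank (ZMod p)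
      (Submodule.span (ZMod p) (Set.range fun i x => (v i x : ZMod p))) = Fintype.card κ := by
    rw [← hspan]
    exact finrank_span_eq_card hind
  rw [Fintype.card_option] at h5
  omega

end Pool.Agent.MP_5fbfc2_al.IC
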