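import Mathlib

/-!
# Counting maximal abelian subgroups of a finite `p`-group (MP_5fbfc2_al)

In a finite `p`-group the number of maximal abelian subgroups containing a given set of pairwise
commuting elements is congruent to `1` modulo `p`.
-/

namespace Pool.Agent.MP_5fbfc2_al

variable {G : Type*} [Group G]

/-- maximal abelian subgroups -/
def IsMaxAb (A : Subgroup G) : Prop :=
  (∀ x ∈ A, ∀ y ∈ A, x * y = y * x) ∧
    ∀ B : Subgroup G, (∀ x ∈ B, ∀ y ∈ B, x * y = y * x) → A ≤ B → A = B

theorem isMaxAb_iff (A : Subgroup G) :
    IsMaxAb A ↔ Subgroup.centralizer (A : Set G) = A := by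
  constructor
  · rintro ⟨hA, hmax⟩
    apply le_antisymm
    · intro x hx
      have hle : Subgroup.closure ((A : Set G) ∪ {x}) ≤
          Subgroup.centralizer (Subgroup.closure ((A : Set G) ∪ {x}) : Set G) := by
        rw [Subgroup.centralizer_closure, Subgroup.closure_le]
        rintro v hv
        rw [SetLike.mem_coe, Subgroup.mem_centralizer_iff]
        intro u hu
        rcases hu with hu | hu <;> rcases hv with hv | hv
        · exact hA u hu v hv
        · rw [Set.mem_singleton_iff] at hv
          subst hv
          exact Subgroup.mem_centralizer_iff.1 hx u hu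
        · rw [Set.mem_singleton_iff] at hu
          subst hu
          exact (Subgroup.mem_centralizer_iff.1 hx v hv).symm
        · rw [Set.mem_singleton_iff] at hu hv
          rw [hu, hv]
      have h2 := hmax _ (fun a ha b hb => Subgroup.mem_centralizer_iff.1 (hle hb) a ha)
        (fun a ha => Subgroup.subset_closure (Or.inl ha))
      rw [h2]
      exact Subgroup.subset_closure (Or.inr rfl)
    · intro x hx
      rw [Subgroup.mem_centralizer_iff]
      intro y hy
      exact hA y hy x hx
  · intro h
    refine ⟨?_, ?_⟩
    · intro x hx y hy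
      rw [← h] at hy
      exact Subgroup.mem_centralizer_iff.1 hy x hx
    · intro B hB hle
      apply le_antisymm hle
      intro b hb
      rw [← h, Subgroup.mem_centralizer_iff]
      intro a ha
      exact hB a (hle ha) b hb

/-- the number of cosets of `K` in `A` is divisible by `p` if `K < A` -/
theorem sum_out_eq_zero [Finite G] {p : ℕ} [hp : Fact p.Prime] (hG : IsPGroup p G)
    [Fintype G] (K A : Subgroup G) [Fintype (G ⧸ K)] [DecidablePred fun x : G => x ∈ A] (h : K < A) :
    (∑ q : G ⧸ K, if q.out ∈ A then (1 : ZMod p) else 0) = 0 := by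
  classical
  rw [Finset.sum_boole, ZMod.natCast_eq_zero_iff]
  have hA : IsPGroup p A := hG.to_subgroup A
  have horb : ∀ q : G ⧸ K, q ∈ MulAction.orbit A ((1 : G) : G ⧸ K) ↔ q.out ∈ A := by
    intro q
    constructor
    · rintro ⟨a, ha⟩
      have h1 : ((a : G) : G ⧸ K) = q := by
        rw [← ha]
        show ((a : G) : G ⧸ K) = (((a : G) * 1 : G) : G ⧸ K)
        rw [mul_one]
      have h2 : ((a : G) : G ⧸ K) = ((q.out : G) : G ⧸ K) := by
        rw [h1]; exact (QuotientGroup.out_eq' q).symm
      have h3 : (a : G)⁻¹ * q.out ∈ K := QuotientGroup.eq.1 h2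
      have h4 : (a : G) * ((a : G)⁻¹ * q.out) ∈ A := A.mul_mem a.2 (h.le h3)
      simpa using h4
    · intro hq
      refine ⟨⟨q.out, hq⟩, ?_⟩
      show (((q.out : G) * 1 : G) : G ⧸ K) = q
      rw [mul_one]
      exact QuotientGroup.out_eq' q
  obtain ⟨n, hn⟩ := hA.card_orbit ((1 : G) : G ⧸ K)
  have hcard : (Finset.univ.filter fun q : G ⧸ K => q.out ∈ A).card =
      Nat.card (MulAction.orbit A ((1 : G) : G ⧸ K)) := by
    rw [← Fintype.card_subtype, ← Nat.card_eq_fintype_card]
    exact Nat.card_congr (Equiv.subtypeEquivRight fun q => (horb q).symm)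
  rw [hcard, hn]
  rcases Nat.eq_zero_or_pos n with h0 | h0
  · exfalso
    rw [h0, pow_zero, Nat.card_eq_one_iff_unique] at hn
    obtain ⟨hs, _⟩ := hn
    apply h.not_ge
    intro a ha
    have h1 : ((a : G) : G ⧸ K) ∈ MulAction.orbit A ((1 : G) : G ⧸ K) := by
      refine ⟨⟨a, ha⟩, ?_⟩
      show (((a : G) * 1 : G) : G ⧸ K) = _
      rw [mul_one]
    have h2 := congrArg Subtype.val (hs.elim ⟨_, h1⟩ ⟨_, MulAction.mem_orbit_self _⟩)
    have h3 : ((a : G) : G ⧸ K) = ((1 : G) : G ⧸ K) := h2
    have h4 := QuotientGroup.eq.1 h3
    simpa using h4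
  · exact dvd_pow_self p h0.ne'

theorem card_self_centralizing [Finite G] {p : ℕ} [hp : Fact p.Prime] (hG : IsPGroup p G) (n : ℕ) :
    ∀ S : Set G, (∀ x ∈ S, ∀ y ∈ S, x * y = y * x) → Nat.card (Subgroup.centralizer S) = n →
      ((Nat.card {A : Subgroup G // Subgroup.centralizer (A : Set G) = A ∧ S ⊆ A} : ℕ) : ZMod p)
        = 1 := by
  classical
  have : Fintype G := Fintype.ofFinite G
  induction n using Nat.strong_induction_on with
  | _ n ih =>
    intro S hS hn
    set C := Subgroup.centralizer S with hC
    set Z := Subgroup.centralizer (C : Set G) with hZ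
    have hSC : S ⊆ C := by
      intro x hx
      rw [SetLike.mem_coe, hC, Subgroup.mem_centralizer_iff]
      intro y hy
      exact hS y hy x hx
    have hZC : Z ≤ C := Subgroup.centralizer_le hSC
    have hSZ : S ⊆ Z := by
      intro x hx
      rw [SetLike.mem_coe, hZ, Subgroup.mem_centralizer_iff]
      intro y hy
      exact (Subgroup.mem_centralizer_iff.1 hy x hx).symm
    have hAC : ∀ A : Subgroup G, Subgroup.centralizer (A : Set G) = A → S ⊆ A → A ≤ C := by
      intro A h1 h2
      rw [← h1]
      exact Subgroup.centralizer_le h2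
    have hZA : ∀ A : Subgroup G, Subgroup.centralizer (A : Set G) = A → S ⊆ A → Z ≤ A := by
      intro A h1 h2
      conv_rhs => rw [← h1]
      exact Subgroup.centralizer_le (hAC A h1 h2)
    rcases eq_or_lt_of_le hZC with heq | hlt
    · -- `C` abelian
      have h1 : Nat.card {A : Subgroup G // Subgroup.centralizer (A : Set G) = A ∧ S ⊆ A} = 1 := by
        rw [Nat.card_eq_one_iff_unique]
        refine ⟨⟨?_⟩, ⟨⟨C, ?_, hSC⟩⟩⟩
        · rintro ⟨A, h1, h2⟩ ⟨B, h3, h4⟩
          apply Subtype.ext
          show A = B
          have e1 : A = C := le_antisymm (hAC A h1 h2) (heq ▸ hZA A h1 h2)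
          have e2 : B = C := le_antisymm (hAC B h3 h4) (heq ▸ hZA B h3 h4)
          rw [e1, e2]
        · exact heq
      rw [h1, Nat.cast_one]
    · -- double counting
      have hfA : Fintype {A : Subgroup G // Subgroup.centralizer (A : Set G) = A ∧ S ⊆ A} :=
        Fintype.ofFinite _
      set X := {A : Subgroup G // Subgroup.centralizer (A : Set G) = A ∧ S ⊆ A} with hX
      have hfQ : Fintype (G ⧸ Z) := Fintype.ofFinite _
      have hlA : ∀ A : X, Z < (A : Subgroup G) := by
        rintro ⟨A, h1, h2⟩
        refine lt_of_le_of_ne (hZA A h1 h2) ?_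
        intro h3
        apply hlt.not_ge
        have h4 : C ≤ Subgroup.centralizer (Z : Set G) := by
          rw [Subgroup.le_centralizer_iff]
        have h5 : Subgroup.centralizer (Z : Set G) = Z := by
          rw [h3]; exact h1
        rw [h5] at h4
        exact h4
      have e1 : ∑ A : X, ∑ q : G ⧸ Z, (if q.out ∈ (A : Subgroup G) then (1 : ZMod p) else 0) = 0 := by
        apply Finset.sum_eq_zero
        intro A _
        exact sum_out_eq_zero hG Z A (hlA A)
      have e2 : ∑ q : G ⧸ Z, (if q.out ∈ C then (1 : ZMod p) else 0) = 0 :=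
        sum_out_eq_zero hG Z C hlt
      rw [Finset.sum_comm] at e1
      have e3 : ∀ q : G ⧸ Z, ∑ A : X, (if q.out ∈ (A : Subgroup G) then (1 : ZMod p) else 0) =
          (if q.out ∈ C then (1 : ZMod p) else 0) +
            (if q = ((1 : G) : G ⧸ Z) then ((Nat.card X : ℕ) : ZMod p) - 1 else 0) := by
        intro q
        by_cases hq : q.out ∈ C
        · by_cases hq1 : q = ((1 : G) : G ⧸ Z)
          · have h1 : q.out ∈ Z := by
              have h2 : ((q.out : G) : G ⧸ Z) = ((1 : G) : G ⧸ Z) := by
                rw [← hq1]; exact QuotientGroup.out_eq' q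
              have h3 := QuotientGroup.eq.1 h2
              rw [mul_one] at h3
              exact Z.inv_mem_iff.1 h3
            rw [if_pos hq, if_pos hq1]
            rw [Finset.sum_congr rfl (g := fun _ => (1 : ZMod p)) (fun A _ =>
              if_pos ((hlA A).le h1))]
            rw [Finset.sum_const, nsmul_eq_mul, mul_one, Finset.card_univ,
              Nat.card_eq_fintype_card]
            ring
          · have h1 : q.out ∉ Z := by
              intro h2
              apply hq1
              rw [← QuotientGroup.out_eq' q]
              apply QuotientGroup.eq.2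
              rw [mul_one]
              exact Z.inv_mem h2
            rw [if_pos hq, if_neg hq1, add_zero]
            -- induction
            have hS' : ∀ x ∈ insert q.out S, ∀ y ∈ insert q.out S, x * y = y * x := by
              have hc : ∀ y ∈ S, y * q.out = q.out * y :=
                fun y hy => Subgroup.mem_centralizer_iff.1 hq y hy
              rintro x (hx | hx) y (hy | hy)
              · rw [hx, hy]
              · rw [hx]; exact (hc y hy).symm
              · rw [hy]; exact hc x hx
              · exact hS x hx y hy
            have hlt' : Nat.card (Subgroup.centralizer (insert q.out S)) < n := by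
              rw [← hn]
              have h2 : Subgroup.centralizer (insert q.out S) < C := by
                refine lt_of_le_of_ne (Subgroup.centralizer_le (Set.subset_insert _ _)) ?_
                intro h3
                apply h1
                refine Subgroup.mem_centralizer_iff.2 ?_
                intro c hc
                rw [SetLike.mem_coe, ← h3] at hc
                exact (Subgroup.mem_centralizer_iff.1 hc q.out (Set.mem_insert _ _)).symm
              exact Set.ncard_lt_ncard h2 (Set.toFinite _)
            have h3 := ih _ hlt' (insert q.out S) hS' rfl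
            refine Eq.trans ?_ h3
            rw [Finset.sum_boole]
            congr 1
            rw [← Fintype.card_subtype, ← Nat.card_eq_fintype_card]
            apply Nat.card_congr
            refine ⟨fun A => ⟨A.1.1, A.1.2.1, Set.insert_subset A.2 A.1.2.2⟩,
              fun A => ⟨⟨A.1, A.2.1, (Set.insert_subset_iff.1 A.2.2).2⟩,
                (Set.insert_subset_iff.1 A.2.2).1⟩, fun _ => rfl, fun _ => rfl⟩
        · have hq1 : q ≠ ((1 : G) : G ⧸ Z) := by
            intro hq1
            apply hq
            apply hZC
            have h2 : ((q.out : G) : G ⧸ Z) = ((1 : G) : G ⧸ Z) := by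
              rw [← hq1]; exact QuotientGroup.out_eq' q
            have h3 := QuotientGroup.eq.1 h2
            rw [mul_one] at h3
            exact Z.inv_mem_iff.1 h3
          rw [if_neg hq, if_neg hq1, add_zero]
          apply Finset.sum_eq_zero
          rintro ⟨A, h1, h2⟩ _
          rw [if_neg]
          intro h3
          exact hq (hAC A h1 h2 h3)
      rw [Finset.sum_congr rfl (fun q _ => e3 q), Finset.sum_add_distrib, e2, zero_add,
        Finset.sum_ite_eq' Finset.univ ((1 : G) : G ⧸ Z), if_pos (Finset.mem_univ _)] at e1
      exact sub_eq_zero.1 e1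

/-- In a finite `p`-group the number of maximal abelian subgroups containing two given commuting
elements is congruent to `1` modulo `p`. -/
theorem card_maxAb [Finite G] {p : ℕ} [Fact p.Prime] (hG : IsPGroup p G) (x y : G)
    (h : x * y = y * x) :
    Nat.card {A : Subgroup G // IsMaxAb A ∧ x ∈ A ∧ y ∈ A} ≡ 1 [MOD p] := by
  have h1 := card_self_centralizing hG _ ({x, y} : Set G) (by
    rintro u (hu | hu) v (hv | hv)
    · rw [hu, hv]
    · rw [Set.mem_singleton_iff] at hv
      rw [hu, hv, h]
    · rw [Set.mem_singleton_iff] at hu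
      rw [hu, hv, h]
    · rw [Set.mem_singleton_iff] at hu hv
      rw [hu, hv]) rfl
  have h2 : Nat.card {A : Subgroup G // IsMaxAb A ∧ x ∈ A ∧ y ∈ A} =
      Nat.card {A : Subgroup G // Subgroup.centralizer (A : Set G) = A ∧ ({x, y} : Set G) ⊆ A} := by
    apply Nat.card_congr
    apply Equiv.subtypeEquivRight
    intro A
    rw [isMaxAb_iff, Set.insert_subset_iff, Set.singleton_subset_iff]
    rfl
  rw [h2, ← (ZMod.natCast_eq_natCast_iff _ _ _), h1, Nat.cast_one]

/-- the case of all maximal abelian subgroups -/
theorem card_maxAb_one [Finite G] {p : ℕ} [Fact p.Prime] (hG : IsPGroup p G) :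
    Nat.card {A : Subgroup G // IsMaxAb A} ≡ 1 [MOD p] := by
  have h1 := card_maxAb hG (1 : G) 1 rfl
  have h2 : Nat.card {A : Subgroup G // IsMaxAb A ∧ (1 : G) ∈ A ∧ (1 : G) ∈ A} =
      Nat.card {A : Subgroup G // IsMaxAb A} := by
    apply Nat.card_congr
    apply Equiv.subtypeEquivRight
    intro A
    constructor
    · exact fun h => h.1
    · exact fun h => ⟨h, A.one_mem, A.one_mem⟩
  rwa [h2] at h1

end Pool.Agent.MP_5fbfc2_al
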