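import Pool.Agent.Lib.MP_5fbfc2_al.MaxAbRank

/-!
# Maximal abelian subgroups and the commuting conductor of a finite `p`-group (MP_5fbfc2_al)
-/

namespace Pool.Agent.MP_5fbfc2_al.MaximalAbelian

open Pool.Agent.MP_5fbfc2_al

/-- Let `G` be a nonabelian finite `p`-group with `b` maximal abelian subgroups.  Then
`rank_{𝔽_p} (M(G) mod p) ≤ b - 1`; hence `p ∈ Ccomm(G)` as soon as `rank_ℚ M(G) ≥ b`, in
particular whenever every maximal abelian subgroup of `G` is the centraliser of an element. -/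
theorem main {G : Type*} [Group G] [Finite G] {p : ℕ} (hp : p.Prime) (hG : IsPGroup p G)
    (hab : ¬ ∀ x y : G, x * y = y * x) :
    (haveI : Fact p.Prime := ⟨hp⟩; latticeRank (ZMod p) G + 1 ≤ numMaxAb G) ∧
    (numMaxAb G ≤ latticeRank ℚ G → p ∈ Ccomm G) ∧
    ((∀ A : Subgroup G, IsMaxAb A → ∃ g : G, A = Subgroup.centralizer ({g} : Set G)) →
      numMaxAb G ≤ latticeRank ℚ G ∧ p ∈ Ccomm G) :=
  ⟨rank_mod_le_pgroup hp hG, mem_Ccomm_of_rank hp hG, fun h =>
    ⟨rank_rat_ge hab h, mem_Ccomm_of_rank hp hG (rank_rat_ge hab h)⟩⟩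

end Pool.Agent.MP_5fbfc2_al.MaximalAbelian
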